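import Pool.Agent.N922.PQ.Lat

/-!
# Project PQ: the reciprocity law from its parts
-/

set_option autoImplicit false
set_option linter.all false

open IsDedekindDomain NumberField Matrix Polynomial
open scoped Classical

namespace Pool.Agent.N900.PQ

open Pool.Agent.N922.PQ
open Pool.Agent.N874.PP (Tup chA chB gq tau Two Ev Sq1 U0)

/-- two different positive primes do not lie in one prime ideal -/
theorem eq_of_ov {O : Type} [CommRing O] [IsDedekindDomain O] {P Q : ℤ} (hP : IsPr P) (hQ : IsPr Q)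
    {𝔓 : HeightOneSpectrum O} (h1 : Ov P 𝔓) (h2 : Ov Q 𝔓) : P = Q := by
  by_contra hne
  have hcop : IsCoprime P Q := by
    rw [hP.2.irreducible.coprime_iff_not_dvd]
    intro hdvd
    have h := hP.2.irreducible.associated_of_dvd hQ.2.irreducible hdvd
    rw [Int.associated_iff] at h
    have := hP.1
    have := hQ.1
    omega
  obtain ⟨u, v, huv⟩ := hcop
  have h3 : (1 : O) ∈ 𝔓.asIdeal := by
    have := congrArg (Int.cast : ℤ → O) huv
    push_cast at this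
    rw [← this]
    exact 𝔓.asIdeal.add_mem (𝔓.asIdeal.mul_mem_left _ h1) (𝔓.asIdeal.mul_mem_left _ h2)
  exact 𝔓.isPrime.ne_top ((Ideal.eq_top_iff_one _).2 h3)

/-- **The reciprocity law.** -/
theorem rec (h1 : S_DIAG) (h2 : S_HP) (h3 : S_UNIM) (h4 : S_RAM) (h5 : S_EXQ) (h6 : S_ISO2) :
    S_REC := by
  intro L O _ _ _ _ _ _ _ a b θ X S T s A B hc hS hT hF 𝔮 h𝔮 α hα hsq hloc hev
  obtain ⟨d, e, hd, he, hR, hiso⟩ := h1 L a b θ hc hF.pa α hα hsq
  obtain ⟨-, heven⟩ := h2 d e hd he hR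
  have hp2 : ∀ z : ℤ, ¬ (2 : ℤ) ∣ z ^ 3 + a * z + b := by
    intro z hz
    obtain ⟨h2T, -, hT'⟩ := hT
    apply (hT' 2 h2T).2 z
    have e1 := hF.ta 2 h2T
    have e2 := hF.tb 2 h2T
    have e3 : z ^ 3 + A 2 * z + B 2 = (z ^ 3 + a * z + b) - ((a - A 2) * z + (b - B 2)) := by ring
    rw [e3]
    exact dvd_sub hz (dvd_add (e1.mul_right _) e2)
  have hQa : ∀ Q ∈ S, ∀ z : ℤ, ¬ Q ∣ z ^ 2 + a := by
    intro Q hQ z hz
    apply (hS Q hQ).2.2 z
    have h7 := dvd_sub hz (hF.ra Q hQ)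
    have h8 : z ^ 2 + a - (a - s Q) = z ^ 2 + s Q := by ring
    rwa [h8] at h7
  have hram : ∀ (p : ℕ) [Fact p.Prime], (p : ℤ) ∈ S → ¬ Ev (𝔮 p) α →
      (IsoAt hc p α ↔ Sq1 (𝔮 p) (α * ((p : L) * θ))) := by
    intro p _ hpS hne
    have hp : p ≠ 2 := by
      rintro rfl
      have := (hS _ hpS).2.1
      norm_num at this
    obtain ⟨𝔓₁, 𝔮', o1, o2, v1, v2, -, hall⟩ := h5 L O a b θ hc hF.sq p (hS _ hpS).1.2
      (hF.rb _ hpS) (hQa _ hpS)
    have hev1 : Ev 𝔓₁ α := by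
      refine hev 𝔓₁ fun Q' hQ' h9 => ?_
      rw [h9, (h𝔮 Q' hQ').2] at v1
      exact lt_irrefl _ v1
    exact h4 L O a b θ hc hF.sq p hp (hF.rb _ hpS) (hQa _ hpS) 𝔓₁ (𝔮 p) o1 (h𝔮 _ hpS).1 v1
      (h𝔮 _ hpS).2 α hα hev1 hne
  have hset : {p : ℕ | ∃ _ : Fact p.Prime, ¬ Spl (d : ℚ_[p]) (e : ℚ_[p])} =
      (((S.filter fun Q => ¬ Ev (𝔮 Q) α ∧ ¬ Sq1 (𝔮 Q) (α * ((Q : L) * θ))).image
        Int.toNat : Finset ℕ) : Set ℕ) := by
    ext p
    simp only [Set.mem_setOf_eq, Finset.coe_image, Set.mem_image, Finset.mem_coe,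
      Finset.mem_filter]
    constructor
    · rintro ⟨hp, hn⟩
      have hn' : ¬ IsoAt hc p α := fun h => hn ((hiso p).1 h)
      have hp2' : p ≠ 2 := by
        rintro rfl
        exact hn' (h6 L a b θ hc hp2 α hα hloc)
      have hnev : ¬ ∀ 𝔓 : HeightOneSpectrum O, Ov (p : ℤ) 𝔓 → Ev 𝔓 α := fun h =>
        hn' (h3 L O a b θ hc hF.sq p hp2' α hα h)
      push Not at hnev
      obtain ⟨𝔓, hov, hne⟩ := hnev
      have hex : ∃ Q ∈ S, 𝔓 = 𝔮 Q := by
        by_contra hcon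
        push Not at hcon
        exact hne (hev 𝔓 hcon)
      obtain ⟨Q, hQS, rfl⟩ := hex
      have hpr : IsPr (p : ℤ) := ⟨by exact_mod_cast hp.out.pos, Nat.prime_iff_prime_int.1 hp.out⟩
      obtain rfl := eq_of_ov hpr (hS Q hQS).1 hov (h𝔮 Q hQS).1
      refine ⟨(p : ℤ), ⟨hQS, hne, fun hsq1 => hn' ?_⟩, Int.toNat_natCast p⟩
      rw [Int.cast_natCast] at hsq1
      exact (hram p hQS hne).2 hsq1
    · rintro ⟨Q, ⟨hQS, hne, hns⟩, hQp⟩
      have hpos := (hS Q hQS).1.1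
      obtain rfl : Q = (p : ℤ) := by omega
      have hp : Fact p.Prime := ⟨Nat.prime_iff_prime_int.2 (hS _ hQS).1.2⟩
      refine ⟨hp, fun hs => hns ?_⟩
      rw [Int.cast_natCast]
      exact (hram p hQS hne).1 ((hiso p).2 hs)
  rw [hset, Set.ncard_coe_finset, Finset.card_image_of_injOn] at heven
  · exact heven
  · intro x hx y hy hxy
    rw [Finset.mem_coe, Finset.mem_filter] at hx hy
    have hx0 := (hS x hx.1).1.1
    have hy0 := (hS y hy.1).1.1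
    omega

end Pool.Agent.N900.PQ
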